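import Pool.Agent.Run7.h562.FpcModel

/-!
# Free factors of fundamental groups of smooth affine varieties with a good function

Let `S` be a connected smooth complex affine variety with a nonconstant regular function `f` such
that either `f` has no zero on `S`, or, for infinitely many values `t`, the fundamental group of
the fibre `f = t` has image of infinite index in the fundamental group of `S`.  If
`π₁(S)` is isomorphic to a free product `A ∗ B`, then `A` and `B` are fundamental groups of smooth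
affine varieties.
-/

set_option autoImplicit false

namespace Pool.Agent.Results.MP_3f12fd_ag.PencilOrUnit

/-- `S` is a smooth affine variety in `ℂⁿ`: it is the set of common zeros of a set of
polynomials, and near each of its points it is the zero set of a holomorphic map with surjective
derivative at the point. -/
def SmoothAffine {n : ℕ} (S : Set (Fin n → ℂ)) : Prop :=
  (∃ P : Set (MvPolynomial (Fin n) ℂ),
    S = {z : Fin n → ℂ | ∀ f ∈ P, MvPolynomial.eval z f = 0}) ∧
  ∀ p ∈ S, ∃ (m : ℕ) (g : (Fin n → ℂ) → (Fin m → ℂ)) (U : Set (Fin n → ℂ)),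
    IsOpen U ∧ p ∈ U ∧ DifferentiableOn ℂ g U ∧
    Function.Surjective (fderiv ℂ g p) ∧
    ∀ z ∈ U, (z ∈ S ↔ g z = 0)

/-- `G` is the fundamental group of a smooth affine variety. -/
def QuasiProjective (G : Type) [Group G] : Prop :=
  ∃ (n : ℕ) (S : Set (Fin n → ℂ)), SmoothAffine S ∧
    ∃ x : S, Nonempty (FundamentalGroup S x ≃* G)

/-- The image in `π₁(S, z)` of the fundamental group, based at `z`, of the fibre of the
polynomial `f` on `S` through the point `z`. -/
noncomputable def fibreImage {n : ℕ} (S : Set (Fin n → ℂ)) (f : MvPolynomial (Fin n) ℂ)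
    (z : S) : Subgroup (FundamentalGroup S z) :=
  (FundamentalGroup.map (⟨Subtype.val, continuous_subtype_val⟩ :
    C({w : S // MvPolynomial.eval w.1 f = MvPolynomial.eval z.1 f}, S)) ⟨z, rfl⟩).range

theorem result {n : ℕ} (S : Set (Fin n → ℂ)) (hS : SmoothAffine S) (hc : IsConnected S)
    (f : MvPolynomial (Fin n) ℂ) (hf : ∀ c : ℂ, ∃ z ∈ S, MvPolynomial.eval z f ≠ c)
    (h : (∀ z ∈ S, MvPolynomial.eval z f ≠ 0) ∨
      {t : ℂ | ∀ z : S, MvPolynomial.eval z.1 f = t → (fibreImage S f z).index = 0}.Infinite)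
    (x : S) (A B : Type) [Group A] [Group B]
    (e : FundamentalGroup S x ≃* Monoid.Coprod A B) :
    QuasiProjective A ∧ QuasiProjective B := by
  obtain ⟨⟨P, hP⟩, hsm⟩ := hS
  have hself : QuasiProjective (Monoid.Coprod A B) := ⟨n, S, ⟨⟨P, hP⟩, hsm⟩, x, ⟨e⟩⟩
  have htriv : ∀ (C : Type) [Group C], Subsingleton C → QuasiProjective C := by
    intro C _ hC
    obtain ⟨M⟩ := Pool.Agent.Run7.h562.model_triv
    obtain ⟨m, S', hP', hs', x', ⟨e'⟩⟩ := Pool.Agent.Run7.h562.qp_of_model (M.cast
      ({ toFun := fun _ => 1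
         invFun := fun _ => 1
         left_inv := fun _ => rfl
         right_inv := fun _ => Subsingleton.elim _ _
         map_mul' := fun _ _ => (mul_one 1).symm } : PUnit.{1} ≃* C))
    exact ⟨m, S', ⟨hP', hs'⟩, x', ⟨e'⟩⟩
  have hmul : ∀ (C : Type) [Group C], Subsingleton C → Nonempty (C ≃* PUnit.{1}) := by
    intro C _ hC
    exact ⟨{ toFun := fun _ => 1
             invFun := fun _ => 1
             left_inv := fun _ => Subsingleton.elim _ _
             right_inv := fun _ => rfl
             map_mul' := fun _ _ => (mul_one 1).symm }⟩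
  rcases subsingleton_or_nontrivial A with hA | hA
  · obtain ⟨k⟩ := hmul A hA
    obtain ⟨m, S', h1, x', ⟨e'⟩⟩ := hself
    exact ⟨htriv A hA, m, S', h1, x', ⟨(e'.trans (MulEquiv.coprodCongr k
      (MulEquiv.refl B))).trans (MulEquiv.punitCoprod B)⟩⟩
  rcases subsingleton_or_nontrivial B with hB | hB
  · obtain ⟨k⟩ := hmul B hB
    obtain ⟨m, S', h1, x', ⟨e'⟩⟩ := hself
    exact ⟨⟨m, S', h1, x', ⟨(e'.trans (MulEquiv.coprodCongr (MulEquiv.refl A)
      k)).trans (MulEquiv.coprodPUnit A)⟩⟩, htriv B hB⟩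
  obtain ⟨h1, h2⟩ := Pool.Agent.Run7.h562.main hsm hc hP f hf h x e
  obtain ⟨M₁⟩ := Pool.Agent.Run7.h562.model_of_fpc h1
  obtain ⟨M₂⟩ := Pool.Agent.Run7.h562.model_of_fpc h2
  obtain ⟨m₁, S₁, a1, a2, a3⟩ := Pool.Agent.Run7.h562.qp_of_model M₁
  obtain ⟨m₂, S₂, b1, b2, b3⟩ := Pool.Agent.Run7.h562.qp_of_model M₂
  exact ⟨⟨m₁, S₁, ⟨a1, a2⟩, a3⟩, ⟨m₂, S₂, ⟨b1, b2⟩, b3⟩⟩

end Pool.Agent.Results.MP_3f12fd_ag.PencilOrUnit
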